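import Pool.Agent.K1H53.EX.Plan2

/-! Piece GEN of project EX. -/

set_option autoImplicit false
set_option linter.unusedSectionVars false

open MeasureTheory Filter Topology

namespace Pool.Agent.K1H1.EX

open Pool.Agent.K1H53.EX

section General

variable {S : Type} [Fintype S] [DecidableEq S] [TopologicalSpace S] [DiscreteTopology S]

omit [Fintype S] [DecidableEq S] [DiscreteTopology S] in
theorem comp_T_le (a : S × S → S × S) (g : C(ℤ → S, ℝ)) (B : ℤ → ℝ) (hB0 : ∀ x, 0 ≤ B x)
    (hB : ∀ (x : ℤ) (η ζ : ℤ → S), (∀ y, y ≠ x → η y = ζ y) → |g η - g ζ| ≤ B x)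
    (u v : ℤ) (η : ℤ → S) : |g (T a u v η) - g η| ≤ B u + B v := by
  unfold T
  by_cases h : u = v
  · simp only [h, if_true, sub_self, abs_zero]
    exact add_nonneg (hB0 v) (hB0 v)
  · simp only [h, if_false]
    set η1 := Function.update η u (a (η u, η v)).1 with h1
    have e1 : |g (Function.update η1 v (a (η u, η v)).2) - g η1| ≤ B v :=
      hB v _ _ fun y hy => Function.update_of_ne hy _ _
    have e2 : |g η1 - g η| ≤ B u := hB u _ _ fun y hy => Function.update_of_ne hy _ _
    calc |g (Function.update η1 v (a (η u, η v)).2) - g η|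
        ≤ |g (Function.update η1 v (a (η u, η v)).2) - g η1| + |g η1 - g η| := abs_sub_le _ _ _
      _ ≤ _ := by linarith

/-- the terms of the generator -/
noncomputable def DD (a : S × S → S × S) (p : ℤ → ℝ) (g : C(ℤ → S, ℝ)) (q : ℤ × ℤ) :
    C(ℤ → S, ℝ) :=
  (p (q.2 - q.1) • (compL (TC a q.1 q.2) - 1)) g

theorem DD_apply (a : S × S → S × S) (p : ℤ → ℝ) (g : C(ℤ → S, ℝ)) (q : ℤ × ℤ) (η : ℤ → S) :
    DD a p g q η = p (q.2 - q.1) * (g (T a q.1 q.2 η) - g η) := rfl

theorem LF_apply (a : S × S → S × S) (p : ℤ → ℝ) (F : Finset (ℤ × ℤ)) (g : C(ℤ → S, ℝ)) :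
    LF a p F g = ∑ q ∈ F, DD a p g q := by
  rw [LF, sum_apply]
  rfl

theorem summable_w (p B : ℤ → ℝ) (hp : ∀ m, 0 ≤ p m) (hs : Summable p) (hB0 : ∀ x, 0 ≤ B x)
    (hB : Summable B) : Summable fun q : ℤ × ℤ => p (q.2 - q.1) * (B q.1 + B q.2) := by
  have h1 : Summable fun q : ℤ × ℤ => B q.1 * p q.2 :=
    hB.mul_of_nonneg hs hB0 hp
  have e1 : Summable fun q : ℤ × ℤ => B q.1 * p (q.2 - q.1) :=
    h1.comp_injective (i := fun q : ℤ × ℤ => (q.1, q.2 - q.1)) (by
      rintro ⟨x, y⟩ ⟨x', y'⟩ h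
      simp only [Prod.mk.injEq] at h ⊢
      omega)
  have e2 : Summable fun q : ℤ × ℤ => B q.2 * p (q.2 - q.1) :=
    h1.comp_injective (i := fun q : ℤ × ℤ => (q.2, q.2 - q.1)) (by
      rintro ⟨x, y⟩ ⟨x', y'⟩ h
      simp only [Prod.mk.injEq] at h ⊢
      omega)
  refine (e1.add e2).congr fun q => ?_
  ring

theorem norm_DD_le (a : S × S → S × S) (p : ℤ → ℝ) (hp : ∀ m, 0 ≤ p m) (g : C(ℤ → S, ℝ))
    (B : ℤ → ℝ) (hB0 : ∀ x, 0 ≤ B x)
    (hB : ∀ (x : ℤ) (η ζ : ℤ → S), (∀ y, y ≠ x → η y = ζ y) → |g η - g ζ| ≤ B x)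
    (q : ℤ × ℤ) : ‖DD a p g q‖ ≤ p (q.2 - q.1) * (B q.1 + B q.2) := by
  rw [ContinuousMap.norm_le _ (mul_nonneg (hp _) (add_nonneg (hB0 _) (hB0 _)))]
  intro η
  rw [DD_apply, norm_mul, Real.norm_of_nonneg (hp _), Real.norm_eq_abs]
  exact mul_le_mul_of_nonneg_left (comp_T_le a g B hB0 hB q.1 q.2 η) (hp _)

theorem summable_DD (a : S × S → S × S) (p : ℤ → ℝ) (hp : ∀ m, 0 ≤ p m) (hs : Summable p)
    (g : C(ℤ → S, ℝ)) (B : ℤ → ℝ) (hB0 : ∀ x, 0 ≤ B x) (hBs : Summable B)
    (hB : ∀ (x : ℤ) (η ζ : ℤ → S), (∀ y, y ≠ x → η y = ζ y) → |g η - g ζ| ≤ B x) :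
    Summable (DD a p g) :=
  Summable.of_norm_bounded (summable_w p B hp hs hB0 hBs) (norm_DD_le a p hp g B hB0 hB)

theorem tsum_DD_apply (a : S × S → S × S) (p : ℤ → ℝ) (g : C(ℤ → S, ℝ))
    (h : Summable (DD a p g)) (η : ℤ → S) :
    (∑' q, DD a p g q) η = genL a p (fun ζ => g ζ) η := by
  exact (ContinuousMap.tsum_apply h η).symm

theorem LF_sub_le (a : S × S → S × S) (p : ℤ → ℝ) (hp : ∀ m, 0 ≤ p m) (hs : Summable p)
    (g : C(ℤ → S, ℝ)) (B : ℤ → ℝ) (hB0 : ∀ x, 0 ≤ B x) (hBs : Summable B)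
    (hB : ∀ (x : ℤ) (η ζ : ℤ → S), (∀ y, y ≠ x → η y = ζ y) → |g η - g ζ| ≤ B x)
    (F : Finset (ℤ × ℤ)) :
    ‖LF a p F g - ∑' q, DD a p g q‖ ≤
      ∑' q : {q : ℤ × ℤ // q ∉ F}, p (q.1.2 - q.1.1) * (B q.1.1 + B q.1.2) := by
  have h1 := summable_DD a p hp hs g B hB0 hBs hB
  have h2 := summable_w p B hp hs hB0 hBs
  rw [LF_apply, ← h1.sum_add_tsum_subtype_compl F, sub_add_cancel_left, norm_neg]
  refine tsum_of_norm_bounded (h2.subtype _).hasSum fun q => ?_
  exact norm_DD_le a p hp g B hB0 hB q.1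

/-- functions of finitely many coordinates are dense -/
theorem dense_local (f : C(ℤ → S, ℝ)) (ε : ℝ) (hε : 0 < ε) :
    ∃ (g : C(ℤ → S, ℝ)) (Λ : Finset ℤ), DependsOn (fun η => g η) (Λ : Set ℤ) ∧ ‖f - g‖ < ε := by
  classical
  let A : Subalgebra ℝ C(ℤ → S, ℝ) :=
    { carrier := {g | ∃ Λ : Finset ℤ, DependsOn (fun η => g η) (Λ : Set ℤ)}
      mul_mem' := by
        rintro g h ⟨Λ, hg⟩ ⟨Λ', hh⟩
        refine ⟨Λ ∪ Λ', fun η ζ hηζ => ?_⟩
        have e1 : g η = g ζ := hg fun i hi => hηζ i (by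
          rw [Finset.coe_union]; exact Or.inl hi)
        have e2 : h η = h ζ := hh fun i hi => hηζ i (by
          rw [Finset.coe_union]; exact Or.inr hi)
        show g η * h η = g ζ * h ζ
        rw [e1, e2]
      add_mem' := by
        rintro g h ⟨Λ, hg⟩ ⟨Λ', hh⟩
        refine ⟨Λ ∪ Λ', fun η ζ hηζ => ?_⟩
        have e1 : g η = g ζ := hg fun i hi => hηζ i (by
          rw [Finset.coe_union]; exact Or.inl hi)
        have e2 : h η = h ζ := hh fun i hi => hηζ i (by
          rw [Finset.coe_union]; exact Or.inr hi)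
        show g η + h η = g ζ + h ζ
        rw [e1, e2]
      algebraMap_mem' := by
        intro r
        exact ⟨∅, fun η ζ _ => rfl⟩ }
  have hA : A.SeparatesPoints := by
    intro η ζ hne
    obtain ⟨x, hx⟩ := Function.ne_iff.mp hne
    refine ⟨fun ξ => if ξ x = η x then (1 : ℝ) else 0, ?_, ?_⟩
    · refine ⟨⟨fun ξ => if ξ x = η x then (1 : ℝ) else 0, ?_⟩, ⟨{x}, ?_⟩, rfl⟩
      · exact (continuous_of_discreteTopology (f := fun b : S => if b = η x then (1 : ℝ) else 0)).comp
          (continuous_apply x)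
      · intro ξ ξ' h
        have : ξ x = ξ' x := h x (by simp)
        show (if ξ x = η x then (1 : ℝ) else 0) = if ξ' x = η x then (1 : ℝ) else 0
        rw [this]
    · show (if η x = η x then (1 : ℝ) else 0) ≠ if ζ x = η x then (1 : ℝ) else 0
      rw [if_pos rfl, if_neg (Ne.symm hx)]
      exact one_ne_zero
  have h1 := ContinuousMap.subalgebra_topologicalClosure_eq_top_of_separatesPoints A hA
  have h2 : f ∈ A.topologicalClosure := by rw [h1]; exact Algebra.mem_top
  have h3 : f ∈ closure (A : Set C(ℤ → S, ℝ)) := h2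
  obtain ⟨g, ⟨Λ, hg⟩, hd⟩ := Metric.mem_closure_iff.mp h3 ε hε
  exact ⟨g, Λ, hg, by rwa [dist_eq_norm] at hd⟩

omit [Fintype S] [DecidableEq S] in
/-- the functions of the coordinates in a set containing the sites of `F` -/
theorem local_stable (a : S × S → S × S) (Λ : Finset ℤ) (q : ℤ × ℤ) (h1 : q.1 ∈ Λ) (h2 : q.2 ∈ Λ)
    (g : C(ℤ → S, ℝ)) (hg : DependsOn (fun η => g η) (Λ : Set ℤ)) :
    DependsOn (fun η => (g.comp (TC a q.1 q.2)) η) (Λ : Set ℤ) := by
  intro η ζ hηζ
  refine hg fun i hi => ?_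
  show T a q.1 q.2 η i = T a q.1 q.2 ζ i
  unfold T
  have e1 : η q.1 = ζ q.1 := hηζ _ h1
  have e2 : η q.2 = ζ q.2 := hηζ _ h2
  by_cases h : q.1 = q.2
  · rw [if_pos h, if_pos h]; exact hηζ i hi
  · rw [if_neg h, if_neg h, e1, e2]
    by_cases h3 : i = q.2
    · rw [h3, Function.update_self, Function.update_self]
    · rw [Function.update_of_ne h3, Function.update_of_ne h3]
      by_cases h4 : i = q.1
      · rw [h4, Function.update_self, Function.update_self]
      · rw [Function.update_of_ne h4, Function.update_of_ne h4]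
        exact hηζ i hi

theorem isClosed_local (Λ : Set ℤ) :
    IsClosed {g : C(ℤ → S, ℝ) | DependsOn (fun η => g η) Λ} := by
  have : {g : C(ℤ → S, ℝ) | DependsOn (fun η => g η) Λ} =
      ⋂ (η : ℤ → S) (ζ : ℤ → S) (_ : ∀ i ∈ Λ, η i = ζ i), {g : C(ℤ → S, ℝ) | g η = g ζ} := by
    ext g
    simp only [Set.mem_ofPred_eq, Set.mem_iInter]
    exact ⟨fun h η ζ hh => h hh, fun h η ζ hh => h η ζ hh⟩
  rw [this]
  refine isClosed_iInter fun η => isClosed_iInter fun ζ => isClosed_iInter fun _ => ?_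
  exact isClosed_eq (continuous_eval_const η) (continuous_eval_const ζ)

theorem convex_local (Λ : Set ℤ) :
    Convex ℝ {g : C(ℤ → S, ℝ) | DependsOn (fun η => g η) Λ} := by
  intro g hg h hh α β _ _ _
  intro η ζ hηζ
  have e1 : g η = g ζ := hg hηζ
  have e2 : h η = h ζ := hh hηζ
  show α * g η + β * h η = α * g ζ + β * h ζ
  rw [e1, e2]

variable [MeasurableSpace S] [BorelSpace S]

theorem integrable_cont (μ : Measure (ℤ → S)) [IsFiniteMeasure μ] (f : C(ℤ → S, ℝ)) :
    Integrable (fun η => f η) μ :=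
  Integrable.of_bound f.continuous.aestronglyMeasurable ‖f‖
    (Eventually.of_forall fun η => f.norm_coe_le_norm η)

/-- the integral as a bounded functional -/
noncomputable def II (μ : Measure (ℤ → S)) [IsProbabilityMeasure μ] : C(ℤ → S, ℝ) →L[ℝ] ℝ :=
  LinearMap.mkContinuous
    { toFun := fun f => ∫ η, f η ∂μ
      map_add' := fun f g => integral_add (integrable_cont μ f) (integrable_cont μ g)
      map_smul' := fun c f => integral_const_mul c _ } 1 (by
    intro f
    rw [one_mul]
    have := norm_integral_le_of_norm_le_const (μ := μ) (f := fun η => f η) (C := ‖f‖)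
      (Eventually.of_forall fun η => f.norm_coe_le_norm η)
    simpa using this)

theorem II_apply (μ : Measure (ℤ → S)) [IsProbabilityMeasure μ] (f : C(ℤ → S, ℝ)) :
    II μ f = ∫ η, f η ∂μ := rfl

theorem II_le (μ : Measure (ℤ → S)) [IsProbabilityMeasure μ] (f : C(ℤ → S, ℝ)) :
    |II μ f| ≤ ‖f‖ := by
  have := norm_integral_le_of_norm_le_const (μ := μ) (f := fun η => f η) (C := ‖f‖)
      (Eventually.of_forall fun η => f.norm_coe_le_norm η)
  rw [II_apply]
  simpa using this

end General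

/-- **GEN** -/
theorem t_GEN : S_GEN := by
  intro h1 h2 S _ _ _ _ _ _ a p P hp hs hP
  -- influences of a local function
  have infl0 : ∀ (f : C(ℤ → S, ℝ)) (Λ : Finset ℤ), DependsOn (fun η => f η) (Λ : Set ℤ) →
      ∃ B : ℤ → ℝ, (∀ x, 0 ≤ B x) ∧ Summable B ∧
        ∀ (x : ℤ) (η ζ : ℤ → S), (∀ y, y ≠ x → η y = ζ y) → |f η - f ζ| ≤ B x := by
    intro f Λ hf
    obtain ⟨B, hB0, hBs, hB⟩ := h2 S a p hp hs f Λ hf 0 le_rfl
    refine ⟨B, hB0, hBs, fun x η ζ h => ?_⟩
    have := hB ∅ 0 le_rfl le_rfl x η ζ h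
    have e : PF a p ∅ 0 f = f := by
      rw [PF, ex_zero]; rfl
    rwa [e] at this
  have sumDD : ∀ (f : C(ℤ → S, ℝ)) (Λ : Finset ℤ), DependsOn (fun η => f η) (Λ : Set ℤ) →
      Summable (DD a p f) := by
    intro f Λ hf
    obtain ⟨B, hB0, hBs, hB⟩ := infl0 f Λ hf
    exact summable_DD a p hp hs f B hB0 hBs hB
  have hPle : ∀ t, 0 ≤ t → ∀ f : C(ℤ → S, ℝ), ‖P t f‖ ≤ ‖f‖ := by
    intro t ht f
    refine le_of_tendsto (hP.lim t ht f).norm (Eventually.of_forall fun F => ?_)
    exact (h1 S a p hp F t ht).2.1 f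
  refine ⟨?_, ?_, ?_⟩
  · intro f Λ hf
    exact ⟨∑' q, DD a p f q, fun η => tsum_DD_apply a p f (sumDD f Λ hf) η⟩
  · intro f g Λ hf hg t ht η
    have hDD := sumDD f Λ hf
    have hgD : g = ∑' q, DD a p f q := by
      ext η
      rw [hg, tsum_DD_apply a p f hDD η]
    have hlimL : Tendsto (fun F : Finset (ℤ × ℤ) => LF a p F f) atTop (𝓝 g) := by
      rw [hgD]
      have := hDD.hasSum
      simp only [LF_apply]
      exact this
    -- the identity for the finite systems
    have hfin : ∀ F : Finset (ℤ × ℤ),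
        PF a p F t f η - f η = ∫ s in (0:ℝ)..t, PF a p F s (LF a p F f) η := by
      intro F
      have hd : ∀ s : ℝ, HasDerivAt (fun s => PF a p F s f η) (PF a p F s (LF a p F f) η) s := by
        intro s
        have h3 := ex_apply_deriv (LF a p F) f s
        exact ((ContinuousMap.evalCLM ℝ η).hasFDerivAt.comp_hasDerivAt s h3)
      have hc : Continuous fun s => PF a p F s (LF a p F f) η := by
        have h4 : Continuous fun s => ex (LF a p F) s (LF a p F f) :=
          continuous_iff_continuousAt.mpr fun s =>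
            (ex_apply_deriv (LF a p F) (LF a p F f) s).continuousAt
        exact (continuous_eval_const η).comp h4
      rw [intervalIntegral.integral_eq_sub_of_hasDerivAt (fun s _ => hd s)
        (hc.intervalIntegrable _ _)]
      have e : PF a p F 0 f = f := by
        rw [PF, ex_zero]; rfl
      rw [e]
    have hL : Tendsto (fun F : Finset (ℤ × ℤ) => PF a p F t f η - f η) atTop
        (𝓝 (P t f η - f η)) := by
      refine Tendsto.sub_const ?_ _
      exact ((continuous_eval_const η).tendsto (P t f)).comp (hP.lim t ht f)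
    have hbd : ∀ᶠ F : Finset (ℤ × ℤ) in atTop, ‖LF a p F f‖ ≤ ‖g‖ + 1 := by
      have := hlimL.norm
      exact (this.eventually (gt_mem_nhds (lt_add_one ‖g‖))).mono fun F h => h.le
    have hR : Tendsto (fun F : Finset (ℤ × ℤ) => ∫ s in (0:ℝ)..t, PF a p F s (LF a p F f) η)
        atTop (𝓝 (∫ s in (0:ℝ)..t, P s g η)) := by
      refine intervalIntegral.tendsto_integral_filter_of_dominated_convergence
        (fun _ => ‖g‖ + 1) ?_ ?_ ?_ ?_
      · refine Eventually.of_forall fun F => ?_
        have hc : Continuous fun s => PF a p F s (LF a p F f) η := by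
          have h4 : Continuous fun s => ex (LF a p F) s (LF a p F f) :=
            continuous_iff_continuousAt.mpr fun s =>
              (ex_apply_deriv (LF a p F) (LF a p F f) s).continuousAt
          exact (continuous_eval_const η).comp h4
        exact hc.aestronglyMeasurable
      · filter_upwards [hbd] with F hF
        refine Eventually.of_forall fun s hs' => ?_
        rw [Set.uIoc_of_le ht] at hs'
        calc ‖PF a p F s (LF a p F f) η‖ ≤ ‖PF a p F s (LF a p F f)‖ :=
              ContinuousMap.norm_coe_le_norm _ _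
          _ ≤ ‖LF a p F f‖ := (h1 S a p hp F s hs'.1.le).2.1 _
          _ ≤ _ := hF
      · exact intervalIntegrable_const
      · refine Eventually.of_forall fun s hs' => ?_
        rw [Set.uIoc_of_le ht] at hs'
        have hs0 : 0 ≤ s := hs'.1.le
        have h5 : Tendsto (fun F : Finset (ℤ × ℤ) => PF a p F s (LF a p F f)) atTop
            (𝓝 (P s g)) := by
          have h6 : Tendsto (fun F : Finset (ℤ × ℤ) => PF a p F s (LF a p F f - g)) atTop
              (𝓝 0) := by
            refine squeeze_zero_norm (fun F => (h1 S a p hp F s hs0).2.1 _) ?_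
            have := (tendsto_sub_nhds_zero_iff.mpr hlimL).norm
            simpa using this
          have h7 := h6.add (hP.lim s hs0 g)
          rw [zero_add] at h7
          refine h7.congr fun F => ?_
          rw [map_sub, sub_add_cancel]
        exact ((continuous_eval_const η).tendsto (P s g)).comp h5
    have hE : (fun F : Finset (ℤ × ℤ) => PF a p F t f η - f η) =
        fun F => ∫ s in (0:ℝ)..t, PF a p F s (LF a p F f) η := funext hfin
    rw [hE] at hL
    exact tendsto_nhds_unique hL hR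
  · intro μ hμ hstat t ht
    -- local functions
    have hloc : ∀ (f : C(ℤ → S, ℝ)) (Λ : Finset ℤ), DependsOn (fun η => f η) (Λ : Set ℤ) →
        II μ (P t f) = II μ f := by
      intro f Λ hf
      obtain ⟨B, hB0, hBs, hB⟩ := h2 S a p hp hs f Λ hf t ht
      set tail : Finset (ℤ × ℤ) → ℝ := fun F =>
        ∑' q : {q : ℤ × ℤ // q ∉ F}, p (q.1.2 - q.1.1) * (B q.1.1 + B q.1.2) with htail
      have htail0 : Tendsto tail atTop (𝓝 0) :=
        tendsto_tsum_compl_atTop_zero fun q : ℤ × ℤ => p (q.2 - q.1) * (B q.1 + B q.2)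
      have hF : ∀ F : Finset (ℤ × ℤ), |II μ (PF a p F t f) - II μ f| ≤ tail F * t := by
        intro F
        have hd : ∀ s ∈ Set.Icc (0:ℝ) t, HasDerivWithinAt (fun s => II μ (PF a p F s f))
            (II μ (LF a p F (PF a p F s f))) (Set.Icc 0 t) s := by
          intro s _
          exact ((II μ).hasFDerivAt.comp_hasDerivAt s
            (ex_apply_deriv' (LF a p F) f s)).hasDerivWithinAt
        have hb : ∀ s ∈ Set.Ico (0:ℝ) t, ‖II μ (LF a p F (PF a p F s f))‖ ≤ tail F := by
          intro s hs'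
          set g := PF a p F s f with hg
          have hBg : ∀ (x : ℤ) (η ζ : ℤ → S), (∀ y, y ≠ x → η y = ζ y) →
              |g η - g ζ| ≤ B x := fun x η ζ h => hB F s hs'.1 hs'.2.le x η ζ h
          -- g is local
          have hgl : DependsOn (fun η => g η)
              ((Λ ∪ (F.image Prod.fst ∪ F.image Prod.snd) : Finset ℤ) : Set ℤ) := by
            have := (h1 S a p hp F s hs'.1).1
              {g : C(ℤ → S, ℝ) | DependsOn (fun η => g η)
                ((Λ ∪ (F.image Prod.fst ∪ F.image Prod.snd) : Finset ℤ) : Set ℤ)}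
              (isClosed_local _) (convex_local _) ?_ f ?_
            · exact this
            · intro g' hg' q hq
              refine local_stable a _ q ?_ ?_ g' hg'
              · exact Finset.mem_union_right _ (Finset.mem_union_left _
                  (Finset.mem_image_of_mem _ hq))
              · exact Finset.mem_union_right _ (Finset.mem_union_right _
                  (Finset.mem_image_of_mem _ hq))
            · intro η ζ hηζ
              exact hf fun i hi => hηζ i (Finset.mem_coe.mpr (Finset.mem_union_left _ hi))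
          have hsD := sumDD g _ hgl
          have h0 : II μ (∑' q, DD a p g q) = 0 := by
            rw [II_apply]
            rw [← hstat (fun ζ => g ζ) _ hgl]
            exact integral_congr_ae (Eventually.of_forall fun η => tsum_DD_apply a p g hsD η)
          calc ‖II μ (LF a p F g)‖ = |II μ (LF a p F g - ∑' q, DD a p g q)| := by
                rw [map_sub, h0, sub_zero, Real.norm_eq_abs]
            _ ≤ ‖LF a p F g - ∑' q, DD a p g q‖ := II_le μ _
            _ ≤ tail F := LF_sub_le a p hp hs g B hB0 hBs hBg F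
        have h3 := norm_image_sub_le_of_norm_deriv_le_segment' hd hb t ⟨ht, le_rfl⟩
        have e : PF a p F 0 f = f := by
          rw [PF, ex_zero]; rfl
        simp only [e, sub_zero] at h3
        exact h3
      have hlim1 : Tendsto (fun F : Finset (ℤ × ℤ) => |II μ (PF a p F t f) - II μ f|) atTop
          (𝓝 |II μ (P t f) - II μ f|) :=
        ((((II μ).continuous.tendsto (P t f)).comp (hP.lim t ht f)).sub_const _).abs
      have hlim2 : Tendsto (fun F => tail F * t) atTop (𝓝 0) := by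
        have := htail0.mul_const t
        rwa [zero_mul] at this
      have h4 := le_of_tendsto_of_tendsto' hlim1 hlim2 hF
      exact sub_eq_zero.mp (abs_eq_zero.mp (le_antisymm h4 (abs_nonneg _)))
    intro f
    show II μ (P t f) = II μ f
    refine eq_of_forall_dist_le fun ε hε => ?_
    obtain ⟨g, Λ, hg, hfg⟩ := dense_local f (ε / 2) (by positivity)
    rw [Real.dist_eq]
    have e1 : II μ (P t f) - II μ f = II μ (P t (f - g)) - II μ (f - g) := by
      rw [map_sub, map_sub, map_sub, hloc g Λ hg]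
      ring
    rw [e1]
    calc |II μ (P t (f - g)) - II μ (f - g)| ≤ |II μ (P t (f - g))| + |II μ (f - g)| :=
          abs_sub _ _
      _ ≤ ‖f - g‖ + ‖f - g‖ := add_le_add ((II_le μ _).trans (hPle t ht _)) (II_le μ _)
      _ ≤ ε := by linarith

end Pool.Agent.K1H1.EX
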